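import Pool.Agent.Helper65.BQ.St

/-! Project BQ, module CAN. -/

set_option autoImplicit false

open Set Topology TopologicalSpace

namespace Pool.Agent.Helper74.BQ

open Pool.Agent.Helper9.SID Pool.Agent.Helper65.BQ

theorem essN_anti {K : Type} [TopologicalSpace K] {f : ℕ → K → ℝ} {κ : ℕ → ℕ} {m n : ℕ}
    (hmn : m ≤ n) {T : Set K} (h : EssN f κ n T) : EssN f κ m T := by
  intro L hL
  obtain ⟨x, hx, hx2⟩ := h L hL
  refine ⟨x, hx, ?_⟩
  simp only [mem_iInter, Finset.mem_range] at hx2 ⊢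
  exact fun i hi => hx2 i (lt_of_lt_of_le hi hmn)

theorem pCAN (hGLU : StGLU) (hCPT : StCPT) : StCAN := by
  intro K _ _ _ f hf T hT
  obtain ⟨hTc, κ, hκ⟩ := hT
  obtain ⟨hi1, -, hi3⟩ := hCPT K f κ
  obtain ⟨T₀, hT₀, hmin⟩ := zorn_superset_nonempty {S : Set K | IsClosed S ∧ Ess f κ S}
    (by
      intro c hc hch hne
      refine ⟨⋂₀ c, ⟨isClosed_sInter fun t ht => (hc ht).1, hi3 c hne hch fun t ht => hc ht⟩,
        fun s hs => sInter_subset_of_mem hs⟩) T ⟨hTc, hκ⟩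
  obtain ⟨⟨hc0, hE0⟩, hm⟩ := hmin
  refine ⟨T₀, hT₀, ⟨hc0, κ, hE0⟩, ?_⟩
  intro T₁ T₂ hc1 hc2 hun hnb
  by_contra hcon
  push Not at hcon
  obtain ⟨hn1, hn2⟩ := hcon
  have hs1 : T₁ ⊆ T₀ := by rw [hun]; exact subset_union_left
  have hs2 : T₂ ⊆ T₀ := by rw [hun]; exact subset_union_right
  have he1 : ¬ Ess f κ T₁ := fun h => hn1 (Subset.antisymm hs1 (hm ⟨hc1, h⟩ hs1))
  have he2 : ¬ Ess f κ T₂ := fun h => hn2 (Subset.antisymm hs2 (hm ⟨hc2, h⟩ hs2))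
  have hx1 : ∃ n, ¬ EssN f κ n T₁ := by
    by_contra h
    push Not at h
    exact he1 (hi1 T₁ hc1 h)
  have hx2 : ∃ n, ¬ EssN f κ n T₂ := by
    by_contra h
    push Not at h
    exact he2 (hi1 T₂ hc2 h)
  obtain ⟨n1, hN1⟩ := hx1
  obtain ⟨n2, hN2⟩ := hx2
  obtain ⟨n, hl1, hl2⟩ : ∃ n, n1 ≤ n ∧ n2 ≤ n := ⟨max n1 n2, le_max_left _ _, le_max_right _ _⟩
  have hM1 : ¬ EssN f κ n T₁ := fun h => hN1 (essN_anti hl1 h)
  have hM2 : ¬ EssN f κ n T₂ := fun h => hN2 (essN_anti hl2 h)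
  unfold EssN at hM1 hM2
  push Not at hM1 hM2
  obtain ⟨L₁, hL1, hL1e⟩ := hM1
  obtain ⟨L₂, hL2, hL2e⟩ := hM2
  have hM : ¬ Ess f (fun i => κ (n + i)) (T₁ ∩ T₂) := fun h => hnb ⟨hc1.inter hc2, _, h⟩
  unfold Ess at hM
  push Not at hM
  obtain ⟨M, hMp, hMe⟩ := hM
  have hMc : IsClosed (⋂ i, M i) := isClosed_iInter fun i => (hMp i).1
  have hZ1 : IsClosed (T₁ ∩ ⋂ i, M i) := hc1.inter hMc
  have hZ2 : IsClosed (T₂ ∩ ⋂ i, M i) := hc2.inter hMc
  have hdis : Disjoint (T₁ ∩ ⋂ i, M i) (T₂ ∩ ⋂ i, M i) := by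
    rw [Set.disjoint_left]
    rintro x ⟨h1, h2⟩ ⟨h3, -⟩
    have : x ∈ T₁ ∩ T₂ ∩ ⋂ i, M i := ⟨⟨h1, h3⟩, h2⟩
    rw [hMe] at this
    exact this
  have hlo : ∀ i, IsClosed (lo (f i)) := fun i => isClosed_le (hf i) continuous_const
  have hhi : ∀ i, IsClosed (hi (f i)) := fun i => isClosed_le continuous_const (hf i)
  have hlh : ∀ i, Disjoint (lo (f i)) (hi (f i)) := by
    intro i
    rw [Set.disjoint_left]
    intro x hx hx2
    have h1 : f i x ≤ 0 := hx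
    have h2 : 1 ≤ f i x := hx2
    linarith
  choose N hN1 hN2 hN3 using fun i => hGLU K _ _ (lo (f (κ i))) (hi (f (κ i))) (L₁ i) (L₂ i)
    hZ1 hZ2 hdis (hlo _) (hhi _) (hlh _) (hL1 i) (hL2 i)
  obtain ⟨x, hx, hxP⟩ := hE0 (fun i => if i < n then N i else M (i - n)) (by
    intro i
    by_cases hin : i < n
    · simp only [hin, if_true]
      exact hN1 i
    · simp only [hin, if_false]
      have h1 := hMp (i - n)
      have h2 : n + (i - n) = i := by omega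
      simp only [h2] at h1
      exact h1)
  rw [mem_iInter] at hxP
  have hxM : x ∈ ⋂ i, M i := by
    rw [mem_iInter]
    intro j
    have h1 := hxP (n + j)
    have h2 : ¬ (n + j < n) := by omega
    have h3 : n + j - n = j := by omega
    simp only [h2, if_false, h3] at h1
    exact h1
  have hxN : ∀ i < n, x ∈ N i := by
    intro i hi
    have h1 := hxP i
    simp only [hi, if_true] at h1
    exact h1
  rw [hun] at hx
  rcases hx with hx | hx
  · have : x ∈ T₁ ∩ ⋂ i ∈ Finset.range n, L₁ i := by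
      refine ⟨hx, ?_⟩
      simp only [mem_iInter, Finset.mem_range]
      exact fun i hi => hN2 i ⟨hxN i hi, hx, hxM⟩
    rw [hL1e] at this
    exact this
  · have : x ∈ T₂ ∩ ⋂ i ∈ Finset.range n, L₂ i := by
      refine ⟨hx, ?_⟩
      simp only [mem_iInter, Finset.mem_range]
      exact fun i hi => hN3 i ⟨hxN i hi, hx, hxM⟩
    rw [hL2e] at this
    exact this

end Pool.Agent.Helper74.BQ
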