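import Pool.Agent.Helper65.BQ.St

/-! Project BQ, module CO2. -/

set_option autoImplicit false

open Set Topology TopologicalSpace

namespace Pool.Agent.Helper74.BQ

open Pool.Agent.Helper9.SID Pool.Agent.Helper65.BQ

theorem isOpen_sub_cU {K Y : Type} [TopologicalSpace K] [TopologicalSpace Y] {O : ℕ → Set K}
    (hO : ∀ j, IsOpen (O j)) {Z : Set K} (hZ : IsCompact Z) {φ : Y → ℕ → Bool}
    (hφ : Continuous φ) : IsOpen {y | Z ⊆ cU O (φ y)} := by
  rw [isOpen_iff_forall_mem_open]
  intro y0 hy0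
  obtain ⟨t, ht⟩ := hZ.elim_finite_subcover (fun j : {j // φ y0 j = true} => O j)
    (fun j => hO j) (by
      intro x hx
      obtain ⟨j, hj, hxj⟩ := hy0 hx
      exact mem_iUnion.mpr ⟨⟨j, hj⟩, hxj⟩)
  refine ⟨⋂ j ∈ t, {y | φ y j = true}, ?_, ?_, ?_⟩
  · intro y hy x hx
    rw [mem_iInter₂] at hy
    obtain ⟨j, hj⟩ := mem_iUnion.mp (ht hx)
    obtain ⟨hjt, hxj⟩ := mem_iUnion.mp hj
    exact ⟨j, hy j hjt, hxj⟩
  · refine isOpen_biInter_finset fun j _ => ?_
    have h1 : Continuous fun y => φ y j := (continuous_apply (j : ℕ)).comp hφ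
    exact (isOpen_discrete ({true} : Set Bool)).preimage h1
  · rw [mem_iInter₂]
    intro j _
    exact j.2

theorem isOpen_coord (m : ℕ) : IsOpen {c : ℕ → Bool | c m = true} := by
  have h1 : Continuous fun c : ℕ → Bool => c m := continuous_apply m
  exact (isOpen_discrete ({true} : Set Bool)).preimage h1

theorem isClosed_essN {K : Type} [TopologicalSpace K] [CompactSpace K] {f : ℕ → K → ℝ}
    {O : ℕ → Set K} (hO : Base O) (κ : ℕ → ℕ) (n : ℕ) :
    IsClosed {c : ℕ → Bool | EssN f κ n (CT O c)} := by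
  rw [← isOpen_compl_iff]
  have e : {c : ℕ → Bool | EssN f κ n (CT O c)}ᶜ =
      ⋃ (L : ℕ → Set K), ⋃ (_ : ∀ i, Par (f (κ i)) (L i)),
        {c : ℕ → Bool | (⋂ i ∈ Finset.range n, L i) ⊆ cU O (fun j => c (Nat.pair 1 j))} := by
    ext c
    have h1 : c ∈ {c : ℕ → Bool | EssN f κ n (CT O c)}ᶜ ↔ ¬ EssN f κ n (CT O c) := Iff.rfl
    rw [h1]
    unfold EssN
    push Not
    simp only [mem_iUnion]
    constructor
    · rintro ⟨L, hL, he⟩
      refine ⟨L, hL, ?_⟩
      intro x hx
      by_contra hx2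
      have : x ∈ CT O c ∩ ⋂ i ∈ Finset.range n, L i := ⟨hx2, hx⟩
      rw [he] at this
      exact this
    · rintro ⟨L, hL, he⟩
      refine ⟨L, hL, ?_⟩
      rw [Set.eq_empty_iff_forall_notMem]
      rintro x ⟨h2, h3⟩
      exact h2 (he h3)
  rw [e]
  refine isOpen_iUnion fun L => isOpen_iUnion fun hL => ?_
  refine isOpen_sub_cU hO.op ?_ ?_
  · refine IsClosed.isCompact ?_
    exact isClosed_biInter fun i _ => (hL i).1
  · exact continuous_pi fun j => continuous_apply _

theorem pCO2 : StCO2 := by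
  intro K _ _ _ f hf O hO
  constructor
  · have e : {c : ℕ → Bool | Cert f O c} =
        (⋂ i : ℕ, ⋃ n : ℕ, {c : ℕ → Bool | c (Nat.pair 2 (Nat.pair i n)) = true}) ∩
        ⋂ l : List ℕ, ((⋂ i ∈ Finset.range l.length,
          {c : ℕ → Bool | c (Nat.pair 2 (Nat.pair i (l.getD i 0))) = true})ᶜ ∪
          {c : ℕ → Bool | EssN f (fun i => l.getD i 0) l.length (CT O c)}) := by
      ext c
      have h1 : c ∈ {c : ℕ → Bool | Cert f O c} ↔ Cert f O c := Iff.rfl
      rw [h1]
      unfold Cert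
      rw [mem_inter_iff, mem_iInter, mem_iInter]
      refine and_congr ?_ ?_
      · refine forall_congr' fun i => ?_
        rw [mem_iUnion]
        rfl
      · refine forall_congr' fun l => ?_
        rw [mem_union, mem_compl_iff, mem_iInter₂, ← imp_iff_not_or]
        simp only [Finset.mem_range]
        rfl
    rw [e]
    refine IsGδ.inter (IsGδ.iInter_of_isOpen fun i => isOpen_iUnion fun n => isOpen_coord _) ?_
    refine IsGδ.iInter fun l => ?_
    refine IsClosed.isGδ ?_
    refine IsClosed.union ?_ (isClosed_essN hO _ _)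
    exact (isOpen_biInter_finset fun i _ => isOpen_coord _).isClosed_compl
  · have e : {q : (ℕ → Bool) × (ℕ → Bool) | CT O q.2 ⊆ GP O q.1} =
        ⋂ n : ℕ, {q : (ℕ → Bool) × (ℕ → Bool) | (univ : Set K) ⊆
          cU O (fun j => q.2 (Nat.pair 1 j) || q.1 (Nat.pair 0 (Nat.pair n j)))} := by
      ext q
      have h1 : q ∈ {q : (ℕ → Bool) × (ℕ → Bool) | CT O q.2 ⊆ GP O q.1} ↔
        CT O q.2 ⊆ GP O q.1 := Iff.rfl
      rw [h1, mem_iInter]
      constructor
      · intro h n x _
        by_cases hx : x ∈ CT O q.2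
        · obtain ⟨j, hj, hxj⟩ := mem_iInter.mp (h hx) n
          exact ⟨j, by simp [hj], hxj⟩
        · have hx' : x ∈ cU O (fun j => q.2 (Nat.pair 1 j)) := by
            by_contra h2
            exact hx h2
          obtain ⟨j, hj, hxj⟩ := hx'
          exact ⟨j, by simp [hj], hxj⟩
      · intro h x hx
        rw [GP, mem_iInter]
        intro n
        obtain ⟨j, hj, hxj⟩ := h n (mem_univ x)
        rw [Bool.or_eq_true] at hj
        rcases hj with hj | hj
        · exact absurd ⟨j, hj, hxj⟩ hx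
        · exact ⟨j, hj, hxj⟩
    rw [e]
    refine IsGδ.iInter_of_isOpen fun n => isOpen_sub_cU hO.op isCompact_univ ?_
    refine continuous_pi fun j => ?_
    have h1 : Continuous fun q : (ℕ → Bool) × (ℕ → Bool) => q.2 (Nat.pair 1 j) :=
      (continuous_apply _).comp continuous_snd
    have h2 : Continuous fun q : (ℕ → Bool) × (ℕ → Bool) => q.1 (Nat.pair 0 (Nat.pair n j)) :=
      (continuous_apply _).comp continuous_fst
    have h3 : Continuous fun p : Bool × Bool => (p.1 || p.2) := continuous_of_discreteTopology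
    exact h3.comp (h1.prodMk h2)

end Pool.Agent.Helper74.BQ
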