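import Pool.Agent.Helper65.BQ.St

/-! Project BQ, module MEE. -/

set_option autoImplicit false

open Set Topology TopologicalSpace

namespace Pool.Agent.Helper74.BQ

open Pool.Agent.Helper9.SID Pool.Agent.Helper65.BQ

section
variable {K : Type} [TopologicalSpace K]

theorem par_level {g : K → ℝ} (hg : Continuous g) {t : ℝ} (h0 : 0 < t) (h1 : t < 1) :
    Par g {x | g x = t} := by
  have hU : IsOpen {x | g x < t} := isOpen_lt hg continuous_const
  have hV : IsOpen {x | t < g x} := isOpen_lt continuous_const hg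
  have h := IsPartition.of_open (A := lo g) (B := hi g) hU hV ?_ ?_ ?_
  · have e : ({x | g x < t} ∪ {x | t < g x})ᶜ = {x | g x = t} := by
      ext x
      simp only [mem_compl_iff, mem_union, mem_setOf_eq, not_or, not_lt]
      constructor
      · rintro ⟨h3, h4⟩; exact le_antisymm h4 h3
      · rintro rfl; exact ⟨le_rfl, le_rfl⟩
    rw [e] at h
    exact h
  · rw [Set.disjoint_left]
    intro x hx hx2
    exact lt_asymm (show g x < t from hx) hx2
  · intro x hx
    exact lt_of_le_of_lt (show g x ≤ 0 from hx) h0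
  · intro x hx
    exact lt_of_lt_of_le h1 (show 1 ≤ g x from hx)

theorem not_ess_empty {f : ℕ → K → ℝ} (hf : ∀ k, Continuous (f k)) {κ : ℕ → ℕ} :
    ¬ Ess f κ (∅ : Set K) := by
  intro h
  obtain ⟨x, hx⟩ := h (fun i => {x | f (κ i) x = 1 / 2})
    (fun i => par_level (hf _) (by norm_num) (by norm_num))
  exact hx.1

theorem ess_level {f : ℕ → K → ℝ} (hf : ∀ k, Continuous (f k)) {κ : ℕ → ℕ} {S : Set K} {t : ℝ}
    (h0 : 0 < t) (h1 : t < 1) (h : Ess f κ S) :
    Ess f (fun i => κ (i + 1)) (S ∩ {x | f (κ 0) x = t}) := by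
  intro L hL
  obtain ⟨x, hx, hx2⟩ := h (fun i => Nat.casesOn i {x | f (κ 0) x = t} L) (fun i => by
    cases i with
    | zero => exact par_level (hf _) h0 h1
    | succ n => exact hL n)
  rw [mem_iInter] at hx2
  exact ⟨x, ⟨hx, hx2 0⟩, mem_iInter.mpr fun i => hx2 (i + 1)⟩

theorem ess_cover (hSPW : StSPW) {f : ℕ → K → ℝ} (hf : ∀ k, Continuous (f k)) {κ : ℕ → ℕ}
    {T : Set K} (hT : IsClosed T) (h : Ess f κ T) (Z : ℕ → Set K) (hZ : T ⊆ ⋃ a, Z a) :
    ∃ a, Ess f (fun i => κ (Nat.pair (a + 1) i)) (T ∩ Z a) := by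
  by_contra hcon
  push Not at hcon
  obtain ⟨S, hST, -, hS, hd⟩ := hSPW K f κ T Z hT h hcon
  have : S = ∅ := by
    rw [Set.eq_empty_iff_forall_notMem]
    intro x hx
    obtain ⟨a, ha⟩ := mem_iUnion.mp (hZ (hST hx))
    have : x ∈ S ∩ Z a := ⟨hx, ha⟩
    rw [hd a] at this
    exact this
  rw [this] at hS
  exact not_ess_empty hf hS

end

/-- The condition of `XX` for one index. -/
def PX {K : Type} [TopologicalSpace K] (f : ℕ → K → ℝ) (O : ℕ → Set K) (k : ℕ) (x : K) : Prop :=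
  ∀ c, jj c = f k x → x ∉ GP O c ∨ ∃ j c', jj c' = f j x ∧ Cert f O c' ∧ CT O c' ⊆ GP O c

theorem isClosed_jjset {K : Type} [TopologicalSpace K] {g : K → ℝ} (hg : Continuous g) :
    IsClosed {x : K | ∃ c, jj c = g x} := by
  have h1 : IsCompact (range jj) := isCompact_range jj_cont
  have h2 : {x : K | ∃ c, jj c = g x} = g ⁻¹' (range jj) := by
    ext x; simp
  rw [h2]
  exact h1.isClosed.preimage hg

theorem step_MEE (hSPW : StSPW) (hFIB : StFIB) (hCO0 : StCO0) {K : Type} [TopologicalSpace K]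
    [CompactSpace K] [MetrizableSpace K] {f : ℕ → K → ℝ} (hf : ∀ k, Continuous (f k))
    {O : ℕ → Set K} (hO : Base O) {T : Set K} (hT : Big f T) (k : ℕ) :
    ∃ T' ⊆ T, Big f T' ∧ ∀ x ∈ T', PX f O k x := by
  obtain ⟨hTc, κ, hκ⟩ := hT
  have hop : IsOpen ((range jj)ᶜ : Set ℝ) := (isCompact_range jj_cont).isClosed.isOpen_compl
  obtain ⟨F, hF1, hF2, hF3, -⟩ := hop.exists_iUnion_isClosed
  have hZ0 := isClosed_jjset (hf k)
  obtain ⟨a, ha⟩ := ess_cover hSPW hf hTc hκ
    (fun a => Nat.casesOn a {x : K | ∃ c, jj c = f k x} (fun n => {x | f k x ∈ F n})) (by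
      intro x _
      rw [mem_iUnion]
      by_cases h : ∃ c, jj c = f k x
      · exact ⟨0, h⟩
      · have : f k x ∈ ((range jj)ᶜ : Set ℝ) := h
        rw [← hF3] at this
        obtain ⟨n, hn⟩ := mem_iUnion.mp this
        exact ⟨n + 1, hn⟩)
  cases a with
  | succ n =>
    refine ⟨T ∩ {x | f k x ∈ F n}, inter_subset_left,
      ⟨hTc.inter ((hF1 n).preimage (hf k)), _, ha⟩, ?_⟩
    rintro x ⟨-, hx⟩ c hc
    exfalso
    have h1 : f k x ∈ ((range jj)ᶜ : Set ℝ) := hF2 n hx
    exact h1 ⟨c, hc⟩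
  | zero =>
    have hTc1 : IsClosed (T ∩ {x : K | ∃ c, jj c = f k x}) := hTc.inter hZ0
    obtain ⟨c, hc⟩ := hFIB K f hf _ _ (f k) hTc1 (hf k) (fun x hx => hx.2) ha
    set T1 := T ∩ {x : K | ∃ c, jj c = f k x} ∩ {x | f k x = jj c} with hT1
    have hT1c : IsClosed T1 := hTc1.inter (isClosed_eq (hf k) continuous_const)
    have hT1T : T1 ⊆ T := fun x hx => hx.1.1
    have hUo : ∀ n, IsOpen (cU O (fun j => c (Nat.pair 0 (Nat.pair n j)))) := by
      intro n
      have : cU O (fun j => c (Nat.pair 0 (Nat.pair n j))) =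
          ⋃ j, ⋃ (_ : c (Nat.pair 0 (Nat.pair n j)) = true), O j := by
        ext x; simp [cU]
      rw [this]
      exact isOpen_iUnion fun j => isOpen_iUnion fun _ => hO.op j
    by_cases hcase : ∃ n, Ess f (fun i => (fun i => (fun i => κ (Nat.pair (0 + 1) i)) i)
        (Nat.pair (n + 1) i)) (T1 ∩ (cU O (fun j => c (Nat.pair 0 (Nat.pair n j))))ᶜ)
    · obtain ⟨n, hn⟩ := hcase
      refine ⟨_, (inter_subset_left).trans hT1T, ⟨hT1c.inter (hUo n).isClosed_compl, _, hn⟩, ?_⟩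
      rintro x ⟨hx1, hx2⟩ c' hc'
      left
      have hcc : c' = c := jj_inj (by rw [hc']; exact hx1.2)
      subst hcc
      intro hG
      exact hx2 (mem_iInter.mp hG n)
    · push Not at hcase
      obtain ⟨S, hS1, hS2, hS3, hS4⟩ := hSPW K f _ T1
        (fun n => (cU O (fun j => c (Nat.pair 0 (Nat.pair n j))))ᶜ) hT1c hc hcase
      have hSG : S ⊆ GP O c := by
        intro x hx
        rw [GP, mem_iInter]
        intro n
        by_contra hn
        have : x ∈ S ∩ (cU O (fun j => c (Nat.pair 0 (Nat.pair n j))))ᶜ := ⟨hx, hn⟩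
        rw [hS4 n] at this
        exact this
      obtain ⟨c', -, hc2, hc3⟩ := hCO0 K f hf O hO (fun _ => univ) S _ (fun _ => isOpen_univ)
        hS2 hS3
      have hlev := ess_level hf (jj_pos c') (jj_lt c') hS3
      refine ⟨_, (inter_subset_left.trans hS1).trans hT1T,
        ⟨hS2.inter (isClosed_eq (hf _) continuous_const), _, hlev⟩, ?_⟩
      rintro x ⟨hx1, hx2⟩ d hd
      right
      have hcc : d = c := jj_inj (by rw [hd]; exact (hS1 hx1).2)
      subst hcc
      exact ⟨_, c', hx2.symm, hc3, by rw [hc2]; exact hSG⟩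

theorem pMEE (hSPW : StSPW) (hFIB : StFIB) (hCO0 : StCO0) : StMEE := by
  intro K _ _ _ f hf O hO T hT
  choose! step h1 h2 h3 using fun (T : Set K) (k : ℕ) (hT : Big f T) =>
    step_MEE hSPW hFIB hCO0 hf hO hT k
  let S : ℕ → Set K := fun n => Nat.rec T (fun k T' => step T' k) n
  have hS0 : S 0 = T := rfl
  have hSs : ∀ k, S (k + 1) = step (S k) k := fun k => rfl
  have hB : ∀ n, Big f (S n) := by
    intro n
    induction n with
    | zero => exact hT
    | succ k ih => rw [hSs]; exact h2 _ _ ih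
  have hmono : ∀ n, S (n + 1) ⊆ S n := fun n => by rw [hSs]; exact h1 _ _ (hB n)
  have hne : ∀ n, (S n).Nonempty := by
    intro n
    rw [Set.nonempty_iff_ne_empty]
    intro h
    obtain ⟨-, κ, hκ⟩ := hB n
    rw [h] at hκ
    exact not_ess_empty hf hκ
  obtain ⟨x, hx⟩ := IsCompact.nonempty_iInter_of_sequence_nonempty_isCompact_isClosed S hmono hne
    (hB 0).1.isCompact (fun n => (hB n).1)
  rw [mem_iInter] at hx
  refine ⟨x, hx 0, ?_⟩
  intro k c hc
  have h4 := h3 (S k) k (hB k) x (by rw [← hSs]; exact hx (k + 1))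
  exact h4 c hc

end Pool.Agent.Helper74.BQ
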